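import Pool.Agent.L7h12.SV.Stm

set_option autoImplicit false

/-! # Part STEP of project SV -/

namespace Pool.Agent.L7h89.SV

open Polynomial Set Pool.Agent.L7h12.SV

/-- monotone in the direction `σ` -/
theorem mono_dir (hMON : S_MON) (p : ℝ[X]) (x0 r : ℝ) (σ : ℤ) (hσ : σ = 1 ∨ σ = -1)
    (h1 : 0 < (σ : ℝ) * p.derivative.eval x0) (h2 : 0 < (σ : ℝ) * (r - x0))
    (h3 : ∀ s, 0 ≤ (σ : ℝ) * (s - x0) → 0 < (σ : ℝ) * (r - s) → Rg p s) :
    ∀ a b, 0 ≤ (σ : ℝ) * (a - x0) → 0 < (σ : ℝ) * (b - a) → 0 ≤ (σ : ℝ) * (r - b) →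
      p.eval a < p.eval b := by
  have hcont : Continuous (fun x => p.derivative.eval x) := p.derivative.continuous
  rcases hσ with rfl | rfl
  · simp only [Int.cast_one, one_mul] at *
    have hlt : x0 < r := by linarith
    rcases hMON p x0 r hlt (fun x hx hx' => h3 x (by linarith) (by linarith)) with h | h
    · intro a b ha hab hb
      exact h.1 ⟨by linarith, by linarith⟩ ⟨by linarith, by linarith⟩ (by linarith)
    · exfalso
      have hev : ∀ᶠ x in nhds x0, 0 < p.derivative.eval x :=
        hcont.continuousAt.eventually (lt_mem_nhds h1)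
      obtain ⟨ε, hε, hb⟩ := Metric.eventually_nhds_iff.1 hev
      have hm : 0 < min ε (r - x0) := lt_min hε (by linarith)
      have e1 : min ε (r - x0) ≤ ε := min_le_left _ _
      have e2 : min ε (r - x0) ≤ r - x0 := min_le_right _ _
      have hx := hb (y := x0 + min ε (r - x0) / 2) (by
        rw [Real.dist_eq, add_sub_cancel_left, abs_of_pos (by linarith)]
        linarith)
      have hx' := h.2 (x0 + min ε (r - x0) / 2) (by linarith) (by linarith)
      linarith
  · simp only [Int.cast_neg, Int.cast_one, neg_one_mul] at *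
    have hlt : r < x0 := by linarith
    rcases hMON p r x0 hlt (fun x hx hx' => h3 x (by linarith) (by linarith)) with h | h
    · exfalso
      have hev : ∀ᶠ x in nhds x0, p.derivative.eval x < 0 :=
        hcont.continuousAt.eventually (gt_mem_nhds (by linarith))
      obtain ⟨ε, hε, hb⟩ := Metric.eventually_nhds_iff.1 hev
      have hm : 0 < min ε (x0 - r) := lt_min hε (by linarith)
      have e1 : min ε (x0 - r) ≤ ε := min_le_left _ _
      have e2 : min ε (x0 - r) ≤ x0 - r := min_le_right _ _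
      have hx := hb (y := x0 - min ε (x0 - r) / 2) (by
        rw [Real.dist_eq, sub_sub_cancel_left, abs_neg, abs_of_pos (by linarith)]
        linarith)
      have hx' := h.2 (x0 - min ε (x0 - r) / 2) (by linarith) (by linarith)
      linarith
    · intro a b ha hab hb
      exact h.1 ⟨by linarith, by linarith⟩ ⟨by linarith, by linarith⟩ (by linarith)

/-- the points of an interval in a direction -/
theorem mem_dir {a b x : ℝ} (σ : ℤ) (hσ : σ = 1 ∨ σ = -1) (h : 0 < (σ : ℝ) * (b - a))
    (hx : x ∈ uIcc a b) : 0 ≤ (σ : ℝ) * (x - a) ∧ 0 ≤ (σ : ℝ) * (b - x) := by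
  rcases hσ with rfl | rfl
  · simp only [Int.cast_one, one_mul] at *
    rw [uIcc_of_le (by linarith)] at hx
    exact ⟨by linarith [hx.1], by linarith [hx.2]⟩
  · simp only [Int.cast_neg, Int.cast_one, neg_one_mul] at *
    rw [uIcc_of_ge (by linarith)] at hx
    exact ⟨by linarith [hx.2], by linarith [hx.1]⟩

/-- critical points are isolated -/
theorem isolated (p : ℝ[X]) (hp : p.derivative ≠ 0) (r : ℝ) :
    ∃ δ : ℝ, 0 < δ ∧ ∀ s, |s - r| < δ → s ≠ r → Rg p s := by
  classical
  have hopen : IsOpen ((↑(p.derivative.roots.toFinset.erase r) : Set ℝ)ᶜ) :=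
    (Finset.finite_toSet _).isClosed.isOpen_compl
  obtain ⟨δ, hδ, hb⟩ := Metric.isOpen_iff.1 hopen r (by simp)
  refine ⟨δ, hδ, fun s hs hne h0 => ?_⟩
  have h1 := hb (Metric.mem_ball.2 (by rw [Real.dist_eq]; exact hs))
  apply h1
  rw [Finset.mem_coe, Finset.mem_erase, Multiset.mem_toFinset, mem_roots hp]
  exact ⟨hne, h0⟩

theorem s_STEP (hBOX : S_BOX) (hMON : S_MON) (hCOL : S_COL) (hLOC : S_LOC) : S_STEP := by
  intro p f K hp hf hK x0 y0 r y1 σ τ hσ hτ h0 hRx hRy hU hf0 hy1 hreg hlt
  obtain ⟨hU1, hU2, hU3, hU4⟩ := hU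
  have hmp := mono_dir hMON p x0 r σ hσ hU1 hU2 hU4
  have hmf := mono_dir hMON f y0 y1 τ hτ hf0 hy1 hreg
  have hZ0 : p.eval x0 = f.eval y0 := hK.sub h0
  have hpr : p.eval x0 < p.eval r := hmp x0 r (by simp) hU2 (by simp)
  -- the height of the crossing
  obtain ⟨y, hy, hfy⟩ := intermediate_value_uIcc (f := fun y => f.eval y) (a := y0) (b := y1)
    f.continuous.continuousOn
    (show p.eval r ∈ uIcc (f.eval y0) (f.eval y1) from by
      rw [uIcc_of_le (by linarith)]
      exact ⟨by linarith, hlt.le⟩)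
  have hfy' : f.eval y = p.eval r := hfy
  obtain ⟨hya, hyb⟩ := mem_dir τ hτ hy1 hy
  have hτ0 : (τ : ℝ) ≠ 0 := by
    rcases hτ with rfl | rfl <;> norm_num
  have hyne0 : y ≠ y0 := by
    rintro rfl
    linarith
  have hyne1 : y ≠ y1 := by
    rintro rfl
    linarith
  have hya' : 0 < (τ : ℝ) * (y - y0) :=
    lt_of_le_of_ne hya (mul_ne_zero hτ0 (sub_ne_zero.2 hyne0)).symm
  have hyb' : 0 < (τ : ℝ) * (y1 - y) :=
    lt_of_le_of_ne hyb (mul_ne_zero hτ0 (sub_ne_zero.2 hyne1.symm)).symm
  have hry : (r, y) ∈ K := by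
    refine hBOX p f K hK x0 r y0 y h0 hfy'.symm ?_ ?_
    · intro x hx
      obtain ⟨hx1, hx2⟩ := mem_dir σ hσ hU2 hx
      rw [uIcc_of_le hpr.le]
      constructor
      · rcases eq_or_ne x x0 with rfl | hne
        · exact le_rfl
        · refine (hmp x0 x (by simp) (lt_of_le_of_ne hx1 ?_) hx2).le
          have hσ0 : (σ : ℝ) ≠ 0 := by rcases hσ with rfl | rfl <;> norm_num
          exact (mul_ne_zero hσ0 (sub_ne_zero.2 hne)).symm
      · rcases eq_or_ne x r with rfl | hne
        · exact le_rfl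
        · refine (hmp x r hx1 (lt_of_le_of_ne hx2 ?_) (by simp)).le
          have hσ0 : (σ : ℝ) ≠ 0 := by rcases hσ with rfl | rfl <;> norm_num
          exact (mul_ne_zero hσ0 (sub_ne_zero.2 hne.symm)).symm
    · intro a ha b hb hab
      obtain ⟨ha1, ha2⟩ := mem_dir τ hτ hya' ha
      obtain ⟨hb1, hb2⟩ := mem_dir τ hτ hya' hb
      have hab' : f.eval a = f.eval b := hab
      by_contra hne
      have hne' : (τ : ℝ) * (b - a) ≠ 0 := mul_ne_zero hτ0 (sub_ne_zero.2 (Ne.symm hne))
      rcases lt_or_gt_of_ne hne' with h | h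
      · have := hmf b a hb1 (by linarith) (by linarith)
        linarith
      · have := hmf a b ha1 h (by linarith)
        linarith
  have hRfy : Rg f y := hreg y hya hyb'
  -- the local graph
  obtain ⟨δ, hδ, hloc⟩ := hLOC p f K hK r y hry hRfy
    (min ((τ : ℝ) * (y - y0)) ((τ : ℝ) * (y1 - y))) (lt_min hya' hyb')
  obtain ⟨δ2, hδ2, hiso⟩ := isolated p hp r
  set d := min δ δ2 / 2 with hd
  have hd0 : 0 < d := by
    rw [hd]
    exact half_pos (lt_min hδ hδ2)
  have hd1 : d < δ := by
    have := min_le_left δ δ2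
    have := lt_min hδ hδ2
    rw [hd]; linarith
  have hd2 : d < δ2 := by
    have := min_le_right δ δ2
    have := lt_min hδ hδ2
    rw [hd]; linarith
  have habs : |(r + σ * d) - r| = d := by
    rw [add_sub_cancel_left]
    rcases hσ with rfl | rfl
    · simp [abs_of_pos hd0]
    · simp [abs_of_pos hd0]
  obtain ⟨y', hy', hK'⟩ := hloc (r + σ * d) (by rw [habs]; exact hd1)
  have hne : (r + (σ : ℝ) * d) ≠ r := by
    intro h
    rw [h] at habs
    simp at habs
    linarith
  obtain ⟨hC1, _, hC3, _, _, _⟩ := hCOL p hp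
  obtain ⟨hD1, _, _, _, _, _⟩ := hCOL f hf
  have hRx' : Rg p (r + σ * d) := hiso _ (by rw [habs]; exact hd2) hne
  have hy'a : 0 < (τ : ℝ) * (y' - y0) := by
    have h1 := lt_of_lt_of_le hy' (min_le_left _ _)
    rw [abs_lt] at h1
    rcases hτ with rfl | rfl
    · simp only [Int.cast_one, one_mul] at *
      linarith [h1.1]
    · simp only [Int.cast_neg, Int.cast_one, neg_one_mul] at *
      linarith [h1.2]
  have hy'b : 0 < (τ : ℝ) * (y1 - y') := by
    have h1 := lt_of_lt_of_le hy' (min_le_right _ _)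
    rw [abs_lt] at h1
    rcases hτ with rfl | rfl
    · simp only [Int.cast_one, one_mul] at *
      linarith [h1.2]
    · simp only [Int.cast_neg, Int.cast_one, neg_one_mul] at *
      linarith [h1.1]
  refine ⟨(r + σ * d, y'), hK', hRx', hreg y' hy'a.le hy'b, ?_, ?_⟩
  · show col p (r + σ * d) = col p x0 + σ
    rcases hσ with rfl | rfl
    · simp only [Int.cast_one, one_mul] at *
      refine hC3 x0 r (r + d) (by linarith) (by linarith) hU3 fun s hs hs' hsr => ?_
      rcases lt_or_gt_of_ne hsr with h | h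
      · exact hU4 s (by linarith) (by linarith)
      · exact hiso s (by rw [abs_of_pos (by linarith)]; linarith) hsr
    · simp only [Int.cast_neg, Int.cast_one, neg_one_mul] at *
      have h := hC3 (r + -d) r x0 (by linarith) (by linarith) hU3 fun s hs hs' hsr => by
        rcases lt_or_gt_of_ne hsr with h | h
        · exact hiso s (by rw [abs_of_neg (by linarith)]; linarith) hsr
        · exact hU4 s (by linarith) (by linarith)
      omega
  · show col f y' = col f y0
    rcases hτ with rfl | rfl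
    · simp only [Int.cast_one, one_mul] at *
      exact hD1 y0 y' (by linarith) fun s hs hs' => hreg s (by linarith) (by linarith)
    · simp only [Int.cast_neg, Int.cast_one, neg_one_mul] at *
      exact (hD1 y' y0 (by linarith) fun s hs hs' => hreg s (by linarith) (by linarith)).symm

end Pool.Agent.L7h89.SV
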